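import Pool.Agent.H39.L.Q193_LT_Sums
import Pool.Agent.H39.L.Q193_LT_Crit
import Pool.Agent.H89.Eu.TDefs
import Pool.Agent.H89.Dev.Defs

/-!
# Motives of schemes with an action of a torus of complexity at most `n`: definitions
-/

set_option autoImplicit false

open CategoryTheory CategoryTheory.Limits AlgebraicGeometry Pool.Agent.Y116.UV Pool.Agent.Q193.LT
open Pool.Agent.H89.Eu (IsTorusScheme)

universe v u

namespace Pool.Agent.H39.Mot

variable {k : Type} [Field k]

/-- The smallest class of schemes which contains the schemes in `G`, the closed subschemes of affine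
spaces stable under a torus, of complexity at most `n`, is closed under isomorphisms, and contains each
one of `X`, `Z`, `U` if it contains the two others, for closed subschemes `Z` of separated schemes `X`
of finite type with complement `U`. -/
inductive Made (G : Sch k → Prop) (n : ℕ) : Sch k → Prop
  | gen (X : Sch k) : G X → Made G n X
  | torus (X : Sch k) : IsTorusScheme n X → Made G n X
  | iso (X Y : Sch k) : FT True X → Nonempty (X ≅ Y) → Made G n X → Made G n Y
  | total (Z X U : Sch k) (i : Z ⟶ X) (j : U ⟶ X) : FT True X → IsTriple i j → Made G n Z →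
      Made G n U → Made G n X
  | opened (Z X U : Sch k) (i : Z ⟶ X) (j : U ⟶ X) : FT True X → IsTriple i j → Made G n Z →
      Made G n X → Made G n U
  | closed (Z X U : Sch k) (i : Z ⟶ X) (j : U ⟶ X) : FT True X → IsTriple i j → Made G n X →
      Made G n U → Made G n Z

variable {A : Type u} [Category.{v} A] [Abelian A]

/-- The objects `H^i_c(X)` for the schemes `X` with the property `G`. -/
def Of (D : CompactData k A) (G : Sch k → Prop) (N : A) : Prop := ∃ (X : Sch k) (i : ℤ),
  G X ∧ N = D.H i X

/-- The smooth projective schemes of dimension at most `n`, and the schemes with the property `G`. -/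
def SmallOr (n : ℕ) (G : Sch k → Prop) (X : Sch k) : Prop :=
  (SmoothProj X ∧ topologicalKrullDim X.left ≤ n) ∨ G X

/-- The point `Spec k` and the schemes in the list. -/
def InList (𝒴 : List (Sch k)) (X : Sch k) : Prop := X = aff k k ∨ X ∈ 𝒴

/-- Every monomorphism splits. -/
def Semisimple (A : Type u) [Category.{v} A] : Prop :=
  ∀ {X Y : A} (f : X ⟶ Y), Mono f → ∃ r : Y ⟶ X, f ≫ r = 𝟙 X

end Pool.Agent.H39.Mot
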