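import Pool.Agent.H39.Mot.Defs
import Pool.Agent.H39.Fin
import Pool.Agent.H89.Eu.Gen

/-!
# Motives of schemes with an action of a torus of complexity at most `n`
-/

set_option autoImplicit false

open CategoryTheory CategoryTheory.Limits AlgebraicGeometry Pool.Agent.Y116.UV Pool.Agent.Z125.UN
  Pool.Agent.Q193.LT Pool.Agent.W5h68.SP

universe v u

namespace Pool.Agent.H39.Mot

section

variable {k : Type} [Field k]

lemma made_of_built {G : Sch k → Prop} {n : ℕ} {X : Sch k} (h : Pool.Agent.W5h38.TV.Built n X) :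
    Made G n X := by
  induction h with
  | torus X h => exact .torus X h
  | iso X Y hX e _ ih => exact .iso X Y hX e ih
  | total Z X U i j hX ht _ _ h1 h2 => exact .total Z X U i j hX ht h1 h2
  | opened Z X U i j hX ht _ _ h1 h2 => exact .opened Z X U i j hX ht h1 h2
  | closed Z X U i j hX ht _ _ h1 h2 => exact .closed Z X U i j hX ht h1 h2

lemma made_bnd {G : Sch k → Prop} {n : ℕ} {P : Sch k → Prop} (hP : Bnd True P)
    (hG : ∀ X, G X → P X) (hB : ∀ X, Pool.Agent.W5h38.TV.Built n X → P X) (X : Sch k)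
    (h : Made G n X) : P X := by
  induction h with
  | gen X h => exact hG X h
  | torus X h => exact hB X (.torus X h)
  | iso X Y hX e _ ih => exact hP.iso hX e ih
  | total Z X U i j hX ht _ _ hZ hU => exact hP.total i j hX ht hZ hU
  | opened Z X U i j hX ht _ _ hZ hX' => exact hP.opened i j hX ht hZ hX'
  | closed Z X U i j hX ht _ _ hX' hU => exact hP.closed i j hX ht hX' hU

lemma sparse_made (G : Sch k → Prop) (n : ℕ) : Sparse (k := k) n (Made G n) :=
  fun N c t f S b hf hS hc hb =>
    made_of_built (Pool.Agent.W5h38.TV.sparse_built n N c t f S b hf hS hc hb)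

lemma cones_made (G : Sch k → Prop) (n : ℕ) : Cones (k := k) n (Made G n) :=
  fun m N r t g α b hg hd hb =>
    made_of_built (Pool.Agent.W5h38.TV.cones_built n m N r t g α b hg hd hb)

/-- The data: a semisimple category with cohomology and a Serre class which contains the point. -/
structure Data (k : Type) [Field k] where
  A : Type u
  [cat : Category.{v} A]
  [ab : Abelian A]
  D : CompactData k A
  hD : IsCompact D
  S : A → Prop
  hS : IsTateSerre D S
  point : ∀ i, S (D.H i (aff k k))

attribute [instance] Data.cat Data.ab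

variable [PerfectField k]

/-- **Finitely many varieties.** -/
theorem fin_motives {Q : Sch k → Prop} (hQ : H89.Dev.IsClass Q) {n : ℕ}
    (hM : H89.Dev.ModelsIn Q n) (G : Sch k → Prop) (X : Sch k) (hX : Made G n X) :
    ∃ 𝒴 : List (Sch k), (∀ Y ∈ 𝒴, (Q Y ∧ topologicalKrullDim Y.left ≤ n) ∨ G Y) ∧
      ∀ (A : Type u) [Category.{v} A] [Abelian A] (D : CompactData k A), IsCompact D →
        Semisimple A → ∀ i, FactorOfSum D (Of D (InList 𝒴)) (D.H i X) := by
  have hZ : ∀ θ : Data.{v, u} k, Bnd True fun X => ∀ i, θ.S (θ.D.H i X) := fun θ =>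
    bnd_compact θ.hD θ.hS θ.point
  have hb := bnd_finGen (R := fun Y => (Q Y ∧ topologicalKrullDim Y.left ≤ n) ∨ G Y) hZ
  obtain ⟨L, h1, h2⟩ := made_bnd hb (fun Y hY => FinGen.gen (Or.inr hY))
    (fun Y hY => H89.Dev.built_of_class hb hQ hM
      (fun Y hY hn => FinGen.gen (Or.inl ⟨hY, hn⟩)) Y hY) X hX
  refine ⟨L, h1, fun A _ _ D hD hss => ?_⟩
  exact h2 ⟨A, D, hD, FactorOfSum D (Of D (InList L)), gen_serre hD hss, fun i =>
    FactorOfSum.self hD ⟨_, i, Or.inl rfl, rfl⟩⟩ fun Y hY i =>
      FactorOfSum.self hD ⟨Y, i, Or.inr hY, rfl⟩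

variable {A : Type u} [Category.{v} A] [Abelian A] {D : CompactData k A}

/-- Finite direct sums of motives of smooth projective varieties of dimension at most `n` or with the
property `G`, and finite direct sums of motives of schemes made of schemes with the property `G` and
torus schemes of complexity at most `n`. -/
theorem sums_made_iff (h : IsMotives D) {P : A → Prop}
    (hP : ∀ {X Y : A} (i : X ⟶ Y) (r : Y ⟶ X), i ≫ r = 𝟙 X → P Y → P X) (G : Sch k → Prop)
    (n : ℕ) : SumsHave D (Of D (SmallOr n G)) P ↔ SumsHave D (Of D (Made G n)) P := by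
  constructor
  · refine sumsHave_of_gen h.compact h.semisimple hP fun N hN => ?_
    have h1 : ∀ Y : Sch k, SmoothProj Y → topologicalKrullDim Y.left ≤ n →
        ∀ i, FactorOfSum D (Of D (SmallOr n G)) (D.H i Y) := fun Y hY hn i =>
      FactorOfSum.self h.compact ⟨Y, i, Or.inl ⟨hY, hn⟩, rfl⟩
    have h0 := point_factor h.compact h.generated h.semisimple n h1
    have hb := bnd_compact h.compact (gen_serre h.compact h.semisimple) h0
    obtain ⟨X, i, hX, rfl⟩ := hN
    exact made_bnd hb (fun X hX i => FactorOfSum.self h.compact ⟨X, i, Or.inr hX, rfl⟩)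
      ((Pool.Agent.W5h38.TV.dim_iff hb n).mp
        (fun X hX _ hn => h.generated n _ (gen_serre h.compact h.semisimple) h1 X hX hn)) X hX i
  · refine sumsHave_of_gen h.compact h.semisimple hP fun N hN => ?_
    have h0 : ∀ i, FactorOfSum D (Of D (Made G n)) (D.H i (aff k k)) := fun i => by
      refine FactorOfSum.self h.compact ⟨aff k k, i, made_of_built
        (Pool.Agent.W5h38.TV.built_of_dim ?_), rfl⟩
      rw [ringKrullDim_eq_zero_of_field]
      exact_mod_cast Nat.zero_le n
    obtain ⟨Y, i, ⟨hY, hn⟩ | hY, rfl⟩ := hN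
    · exact (Pool.Agent.W5h38.TV.dim_iff
        (bnd_compact h.compact (gen_serre h.compact h.semisimple) h0) n).mpr
        (fun X hX i => FactorOfSum.self h.compact ⟨X, i, made_of_built hX, rfl⟩) Y hY.ft
        hY.smooth hn i
    · exact FactorOfSum.self h.compact ⟨Y, i, .gen Y hY, rfl⟩

end

end Pool.Agent.H39.Mot
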